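import Mathlib

set_option autoImplicit false

open Pointwise

namespace Pool.Agent.J4.H3.PS

/-- `S` is an inverse semigroup: it is regular and its idempotents commute. -/
def IsInv (S : Type) [Semigroup S] : Prop :=
  (∀ a : S, ∃ b : S, a * b * a = a ∧ b * a * b = b) ∧
    ∀ e f : S, e * e = e → f * f = f → e * f = f * e

/-- The group `(ℤ/2)^(Γ × I) ⋊ Γ`. -/
@[ext] structure W (Γ I : Type) where
  v : Γ → I → ZMod 2
  g : Γ

namespace W

variable {Γ I : Type} [Group Γ]

instance : Mul (W Γ I) := ⟨fun x y => ⟨fun γ i => x.v γ i + y.v (x.g⁻¹ * γ) i, x.g * y.g⟩⟩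
instance : One (W Γ I) := ⟨⟨fun _ _ => 0, 1⟩⟩
instance : Inv (W Γ I) := ⟨fun x => ⟨fun γ i => - x.v (x.g * γ) i, x.g⁻¹⟩⟩

@[simp] theorem mul_g (x y : W Γ I) : (x * y).g = x.g * y.g := rfl
@[simp] theorem mul_v (x y : W Γ I) (γ : Γ) (i : I) :
    (x * y).v γ i = x.v γ i + y.v (x.g⁻¹ * γ) i := rfl
@[simp] theorem one_g : (1 : W Γ I).g = 1 := rfl
@[simp] theorem one_v (γ : Γ) (i : I) : (1 : W Γ I).v γ i = 0 := rfl
@[simp] theorem inv_g (x : W Γ I) : (x⁻¹).g = x.g⁻¹ := rfl
@[simp] theorem inv_v (x : W Γ I) (γ : Γ) (i : I) : (x⁻¹).v γ i = - x.v (x.g * γ) i := rfl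

instance : Group (W Γ I) := Group.ofLeftAxioms
  (by
    intro x y z
    refine W.ext ?_ ?_
    · funext γ i
      simp [mul_assoc, add_assoc]
    · simp [mul_assoc])
  (by
    intro x
    refine W.ext ?_ ?_
    · funext γ i
      simp
    · simp)
  (by
    intro x
    refine W.ext ?_ ?_
    · funext γ i
      show - x.v (x.g * γ) i + x.v ((x.g⁻¹)⁻¹ * γ) i = 0
      rw [inv_inv, neg_add_cancel]
    · simp)

instance [Finite Γ] [Finite I] : Finite (W Γ I) := by
  have : Function.Injective (fun x : W Γ I => (x.v, x.g)) := by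
    intro x y h
    simp only [Prod.mk.injEq] at h
    exact W.ext h.1 h.2
  exact Finite.of_injective _ this

end W

section

variable {S : Type} [Semigroup S] {Γ : Type} [Group Γ]

variable (inv : S → S) (h1 : ∀ a, a * inv a * a = a) (h2 : ∀ a, inv a * a * inv a = inv a)
  (hc : ∀ e f : S, e * e = e → f * f = f → e * f = f * e)

include h1 in
theorem idR (a : S) : (a * inv a) * (a * inv a) = a * inv a := by rw [← mul_assoc, h1]

include h1 in
theorem idL (a : S) : (inv a * a) * (inv a * a) = inv a * a := by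
  rw [mul_assoc, ← mul_assoc a, h1]

include hc in
/-- Inverses are unique. -/
theorem uniq {a b c : S} (b1 : a * b * a = a) (b2 : b * a * b = b) (c1 : a * c * a = a)
    (c2 : c * a * c = c) : b = c := by
  have e1 : (b * a) * (b * a) = b * a := by rw [← mul_assoc, b2]
  have e2 : (c * a) * (c * a) = c * a := by rw [← mul_assoc, c2]
  have e3 : (a * b) * (a * b) = a * b := by rw [← mul_assoc, b1]
  have e4 : (a * c) * (a * c) = a * c := by rw [← mul_assoc, c1]
  have k1 : b = c * a * b := by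
    calc b = b * a * b := b2.symm
      _ = b * (a * c * a) * b := by rw [c1]
      _ = ((b * a) * (c * a)) * b := by simp only [mul_assoc]
      _ = ((c * a) * (b * a)) * b := by rw [hc _ _ e1 e2]
      _ = c * (a * b * a) * b := by simp only [mul_assoc]
      _ = c * a * b := by rw [b1]
  have k2 : c = c * a * b := by
    calc c = c * a * c := c2.symm
      _ = c * (a * b * a) * c := by rw [b1]
      _ = c * ((a * b) * (a * c)) := by simp only [mul_assoc]
      _ = c * ((a * c) * (a * b)) := by rw [hc _ _ e3 e4]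
      _ = (c * a * c) * (a * b) := by simp only [mul_assoc]
      _ = c * a * b := by rw [c2]; simp only [mul_assoc]
  rw [k1, ← k2]

include h1 h2 hc in
theorem inv_idem {e : S} (he : e * e = e) : inv e = e :=
  uniq hc (h1 e) (h2 e) (by rw [he, he]) (by rw [he, he])

include h1 h2 hc in
theorem inv_mul' (a b : S) : inv (a * b) = inv b * inv a := by
  have c := hc _ _ (idR inv h1 b) (idL inv h1 a)
  refine uniq hc (h1 _) (h2 _) ?_ ?_
  · calc a * b * (inv b * inv a) * (a * b)
        = a * ((b * inv b) * (inv a * a)) * b := by simp only [mul_assoc]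
      _ = a * ((inv a * a) * (b * inv b)) * b := by rw [c]
      _ = (a * inv a * a) * (b * inv b * b) := by simp only [mul_assoc]
      _ = a * b := by rw [h1, h1]
  · calc inv b * inv a * (a * b) * (inv b * inv a)
        = inv b * ((inv a * a) * (b * inv b)) * inv a := by simp only [mul_assoc]
      _ = inv b * ((b * inv b) * (inv a * a)) * inv a := by rw [c]
      _ = (inv b * b * inv b) * (inv a * a * inv a) := by simp only [mul_assoc]
      _ = inv b * inv a := by rw [h2, h2]

variable (θ : S →ₙ* Γ) (hθ : ∀ a, θ a = 1 → a * a = a)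

include h1 in
theorem θ_inv (a : S) : θ (inv a) = (θ a)⁻¹ := by
  have := congrArg θ (h1 a)
  rw [map_mul, map_mul] at this
  have h3 : θ a * θ (inv a) = 1 := mul_eq_right.mp this
  exact eq_inv_of_mul_eq_one_right h3

include h1 hc hθ in
/-- `θ a` and `a * inv a` determine `a`. -/
theorem determined {u w : S} (h : θ u = θ w) (hR : u * inv u = w * inv w) : u = w := by
  have a1 : u * (inv u * w) = w := by rw [← mul_assoc, hR, h1]
  have a2 : w * (inv w * u) = u := by rw [← mul_assoc, ← hR, h1]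
  have i1 : (inv u * w) * (inv u * w) = inv u * w := hθ _ (by
    rw [map_mul, θ_inv inv h1, h, inv_mul_cancel])
  have i2 : (inv w * u) * (inv w * u) = inv w * u := hθ _ (by
    rw [map_mul, θ_inv inv h1, h, inv_mul_cancel])
  obtain ⟨e, he⟩ : ∃ e, e = inv u * w := ⟨_, rfl⟩
  obtain ⟨f, hf⟩ : ∃ f, f = inv w * u := ⟨_, rfl⟩
  rw [← he] at a1 i1
  rw [← hf] at a2 i2
  have a3 : w * e = w := by rw [← a1, mul_assoc, i1]
  calc u = w * f := a2.symm
    _ = w * e * f := by rw [a3]
    _ = w * (e * f) := mul_assoc _ _ _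
    _ = w * (f * e) := by rw [hc _ _ i1 i2]
    _ = w * f * e := (mul_assoc _ _ _).symm
    _ = u * e := by rw [a2]
    _ = w := a1

/-- The constrained coordinates. -/
def U (s : S) (γ : Γ) (f : S) : Prop :=
  ∃ u : S, θ u = γ⁻¹ ∧ u * inv u = f ∧ u * (s * inv s) = u

include h1 h2 hc hθ in
theorem U_mul (s t : S) (γ : Γ) (f : S) :
    U inv θ (s * t) γ f ↔ U inv θ s γ f ∧ U inv θ t ((θ s)⁻¹ * γ) f := by
  have hst : (s * t) * inv (s * t) = s * (t * inv t) * inv s := by
    rw [inv_mul' inv h1 h2 hc]; simp only [mul_assoc]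
  have hus : ∀ u : S, u * (s * inv s) = u → (u * s) * inv (u * s) = u * inv u := by
    intro u hu
    rw [inv_mul' inv h1 h2 hc]
    calc u * s * (inv s * inv u) = u * (s * inv s) * inv u := by simp only [mul_assoc]
      _ = u * inv u := by rw [hu]
  constructor
  · rintro ⟨u, hu1, hu2, hu3⟩
    rw [hst] at hu3
    have hus1 : u * (s * inv s) = u := by
      calc u * (s * inv s) = u * (s * (t * inv t) * inv s) * (s * inv s) := by rw [hu3]
        _ = u * (s * (t * inv t) * (inv s * s * inv s)) := by simp only [mul_assoc]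
        _ = u := by rw [h2, hu3]
    refine ⟨⟨u, hu1, hu2, hus1⟩, u * s, ?_, ?_, ?_⟩
    · rw [map_mul, hu1, mul_inv_rev, inv_inv]
    · rw [hus u hus1, hu2]
    · have c := hc _ _ (idR inv h1 t) (idL inv h1 s)
      calc u * s * (t * inv t) = u * (s * inv s * s) * (t * inv t) := by rw [h1]
        _ = u * s * ((inv s * s) * (t * inv t)) := by simp only [mul_assoc]
        _ = u * s * ((t * inv t) * (inv s * s)) := by rw [c]
        _ = u * (s * (t * inv t) * inv s) * s := by simp only [mul_assoc]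
        _ = u * s := by rw [hu3]
  · rintro ⟨⟨u, hu1, hu2, hu3⟩, w, hw1, hw2, hw3⟩
    have huw : u * s = w := by
      apply determined inv h1 hc θ hθ
      · rw [map_mul, hu1, hw1, mul_inv_rev, inv_inv]
      · rw [hus u hu3, hu2, hw2]
    refine ⟨u, hu1, hu2, ?_⟩
    rw [hst]
    calc u * (s * (t * inv t) * inv s) = (u * s) * (t * inv t) * inv s := by
          simp only [mul_assoc]
      _ = u * s * inv s := by rw [huw, hw3]
      _ = u := by rw [mul_assoc, hu3]

/-- The subset of the group which represents `s`. -/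
def ψ (s : S) : Set (W Γ S) := {x | x.g = θ s ∧ ∀ γ f, U inv θ s γ f → x.v γ f = 0}

include h1 h2 hc hθ in
theorem ψ_mul (s t : S) : ψ inv θ (s * t) = ψ inv θ s * ψ inv θ t := by
  classical
  apply Set.Subset.antisymm
  · rintro z ⟨hz1, hz2⟩
    refine ⟨⟨fun γ f => if U inv θ s γ f then 0 else z.v γ f, θ s⟩, ⟨rfl, ?_⟩,
      ⟨fun δ f => if U inv θ s (θ s * δ) f then z.v (θ s * δ) f else 0, θ t⟩, ⟨rfl, ?_⟩, ?_⟩
    · intro γ f h
      simp [h]
    · intro δ f h
      by_cases h3 : U inv θ s (θ s * δ) f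
      · simp only [h3, if_true]
        apply hz2
        rw [U_mul inv h1 h2 hc θ hθ]
        refine ⟨h3, ?_⟩
        rwa [inv_mul_cancel_left]
      · simp [h3]
    · refine W.ext ?_ ?_
      · funext γ f
        by_cases h3 : U inv θ s γ f
        · simp [h3]
        · simp [h3]
      · simp [hz1]
  · rintro z ⟨x, ⟨hx1, hx2⟩, y, ⟨hy1, hy2⟩, rfl⟩
    refine ⟨?_, ?_⟩
    · simp [hx1, hy1]
    · intro γ f h
      rw [U_mul inv h1 h2 hc θ hθ] at h
      have e1 := hx2 _ _ h.1
      have e2 := hy2 _ _ h.2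
      simp [hx1, e1, e2]

include h1 h2 hc hθ in
theorem ψ_inj : Function.Injective (ψ inv θ) := by
  classical
  have hsub : ∀ s t : S, ψ inv θ s = ψ inv θ t → θ s = θ t ∧
      ∀ γ f, U inv θ s γ f → U inv θ t γ f := by
    intro s t h
    have h0 : (⟨fun _ _ => 0, θ s⟩ : W Γ S) ∈ ψ inv θ s := ⟨rfl, fun _ _ _ => rfl⟩
    have hst : θ s = θ t := by
      rw [h] at h0
      exact h0.1
    refine ⟨hst, fun γ f hU => ?_⟩
    by_contra hcon
    have h4 : (⟨fun γ' f' => if γ' = γ ∧ f' = f then 1 else 0, θ t⟩ : W Γ S) ∈ ψ inv θ t := by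
      refine ⟨rfl, fun γ' f' hU' => ?_⟩
      have : ¬ (γ' = γ ∧ f' = f) := by
        rintro ⟨rfl, rfl⟩
        exact hcon hU'
      simp [this]
    rw [← h] at h4
    have := h4.2 γ f hU
    simp at this
  have hle : ∀ s t : S, (∀ γ f, U inv θ s γ f → U inv θ t γ f) →
      (s * inv s) * (t * inv t) = s * inv s := by
    intro s t h
    have hid := idR inv h1 s
    have h5 : U inv θ s 1 (s * inv s) := by
      refine ⟨s * inv s, ?_, ?_, hid⟩
      · rw [map_mul, θ_inv inv h1, mul_inv_cancel, inv_one]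
      · rw [inv_idem inv h1 h2 hc hid, hid]
    obtain ⟨w, hw1, hw2, hw3⟩ := h _ _ h5
    have hwi : w * w = w := hθ w (by rw [hw1, inv_one])
    rw [inv_idem inv h1 h2 hc hwi, hwi] at hw2
    rw [← hw2]
    exact hw3
  intro s t h
  obtain ⟨a1, a2⟩ := hsub s t h
  obtain ⟨-, b2⟩ := hsub t s h.symm
  have c1 := hle s t a2
  have c2 := hle t s b2
  apply determined inv h1 hc θ hθ a1
  rw [← c1, hc _ _ (idR inv h1 s) (idR inv h1 t), c2]

end

/-- A finite inverse semigroup with an idempotent pure homomorphism to a finite group embeds. -/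
theorem embeds {S : Type} [Semigroup S] [Finite S] (hS : IsInv S) {Γ : Type} [Group Γ] [Finite Γ]
    (θ : S →ₙ* Γ) (hθ : ∀ a, θ a = 1 → a * a = a) :
    ∃ (G : Type) (_ : Group G) (_ : Finite G) (ψ : S →ₙ* Set G), Function.Injective ψ ∧
      ∀ s, (ψ s).Nonempty := by
  obtain ⟨hreg, hc⟩ := hS
  choose inv h1 h2 using hreg
  refine ⟨W Γ S, inferInstance, inferInstance, ⟨ψ inv θ, ψ_mul inv h1 h2 hc θ hθ⟩,
    ψ_inj inv h1 h2 hc θ hθ, fun s => ⟨⟨fun _ _ => 0, θ s⟩, rfl, fun _ _ _ => rfl⟩⟩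

/-- `S` embeds in the semigroup of the (nonempty) subsets of a finite group. -/
def EmbFinite (S : Type) [Semigroup S] : Prop :=
  ∃ (G : Type) (_ : Group G) (_ : Finite G) (ψ : S →ₙ* Set G), Function.Injective ψ ∧
      ∀ s, (ψ s).Nonempty

/-- `S` is an `E`-unitary inverse semigroup: an inverse semigroup with an idempotent pure homomorphism
to a group. -/
def IsEUnitary (S : Type) [Semigroup S] : Prop :=
  IsInv S ∧ ∃ (Γ : Type) (_ : Group Γ) (θ : S →ₙ* Γ), ∀ a, θ a = 1 → a * a = a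

/-- A finite `E`-unitary inverse semigroup embeds. -/
theorem embeds' {S : Type} [Semigroup S] [Finite S] (hS : IsEUnitary S) : EmbFinite S := by
  obtain ⟨hS, Γ, _, θ, hθ⟩ := hS
  rcases isEmpty_or_nonempty S with hE | ⟨⟨s₀⟩⟩
  · exact embeds hS (Γ := PUnit) ⟨fun _ => 1, fun _ _ => rfl⟩ (fun a => isEmptyElim a)
  · obtain ⟨hreg, hc⟩ := hS
    choose inv h1 h2 using hreg
    let H : Subgroup Γ :=
      { carrier := Set.range θ
        mul_mem' := by
          rintro _ _ ⟨a, rfl⟩ ⟨b, rfl⟩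
          exact ⟨a * b, map_mul θ a b⟩
        one_mem' := ⟨s₀ * inv s₀, by rw [map_mul, θ_inv inv h1, mul_inv_cancel]⟩
        inv_mem' := by
          rintro _ ⟨a, rfl⟩
          exact ⟨inv a, θ_inv inv h1 θ a⟩ }
    have hfin : Finite H := (Set.finite_range θ).to_subtype
    refine embeds ⟨fun a => ⟨inv a, h1 a, h2 a⟩, hc⟩ (Γ := H)
      ⟨fun a => ⟨θ a, a, rfl⟩, fun a b => Subtype.ext (map_mul θ a b)⟩ ?_
    intro a ha
    exact hθ a (congrArg Subtype.val ha)

/-- Adjoining a zero. -/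
theorem embeds_zero {S : Type} [Semigroup S] (h : EmbFinite S) : EmbFinite (WithZero S) := by
  classical
  obtain ⟨G, _, _, ψ, hinj, hne⟩ := h
  refine ⟨G × Multiplicative (ZMod 2), inferInstance, inferInstance,
    ⟨fun s => match s with
      | none => Set.univ
      | some s => (ψ s) ×ˢ {1}, ?_⟩, ?_, ?_⟩
  · rintro (_ | s) (_ | t)
    · exact Set.univ_mul_univ.symm
    · obtain ⟨x, hx⟩ := hne t
      show Set.univ = Set.univ * ((ψ t) ×ˢ {1})
      symm
      rw [Set.eq_univ_iff_forall]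
      intro z
      exact ⟨z * (x, 1)⁻¹, Set.mem_univ _, (x, 1), ⟨hx, rfl⟩, by group⟩
    · obtain ⟨x, hx⟩ := hne s
      show Set.univ = ((ψ s) ×ˢ {1}) * Set.univ
      symm
      rw [Set.eq_univ_iff_forall]
      intro z
      exact ⟨(x, 1), ⟨hx, rfl⟩, (x, 1)⁻¹ * z, Set.mem_univ _, by group⟩
    · show (ψ (s * t)) ×ˢ {1} = ((ψ s) ×ˢ {1}) * ((ψ t) ×ˢ {1})
      rw [map_mul]
      apply Set.Subset.antisymm
      · rintro ⟨z, e⟩ ⟨⟨x, hx, y, hy, hz⟩, he⟩
        refine ⟨(x, 1), ⟨hx, rfl⟩, (y, 1), ⟨hy, rfl⟩, ?_⟩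
        have he' : e = 1 := he
        have hz' : x * y = z := hz
        show (x * y, (1 : Multiplicative (ZMod 2)) * 1) = (z, e)
        rw [he', hz', mul_one]
      · rintro _ ⟨⟨x, e⟩, ⟨hx, he⟩, ⟨y, e'⟩, ⟨hy, he'⟩, rfl⟩
        have he1 : e = 1 := he
        have he2 : e' = 1 := he'
        subst he1
        subst he2
        exact ⟨⟨x, hx, y, hy, rfl⟩, by show (1 : Multiplicative (ZMod 2)) * 1 = 1; simp⟩
  · have hnz : ∀ s : S, (Set.univ : Set (G × Multiplicative (ZMod 2))) ≠ (ψ s) ×ˢ {1} := by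
      intro s hs
      have : ((1 : G), (Multiplicative.ofAdd (1 : ZMod 2))) ∈ (ψ s) ×ˢ ({1} : Set _) := by
        rw [← hs]; exact Set.mem_univ _
      have h3 : Multiplicative.ofAdd (1 : ZMod 2) = 1 := this.2
      exact absurd h3 (by decide)
    rintro (_ | s) (_ | t) h
    · rfl
    · exact absurd h (hnz t)
    · exact absurd h.symm (hnz s)
    · have h' : (ψ s) ×ˢ ({1} : Set (Multiplicative (ZMod 2))) = (ψ t) ×ˢ {1} := h
      have : ψ s = ψ t := by
        ext x
        constructor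
        · intro hx
          have : (x, (1 : Multiplicative (ZMod 2))) ∈ (ψ s) ×ˢ ({1} : Set _) := ⟨hx, rfl⟩
          rw [h'] at this
          exact this.1
        · intro hx
          have : (x, (1 : Multiplicative (ZMod 2))) ∈ (ψ t) ×ˢ ({1} : Set _) := ⟨hx, rfl⟩
          rw [← h'] at this
          exact this.1
      exact congrArg some (hinj this)
  · rintro (_ | s)
    · exact ⟨1, Set.mem_univ _⟩
    · obtain ⟨x, hx⟩ := hne s
      exact ⟨(x, 1), hx, rfl⟩

/-- `S` is separated by homomorphisms to semigroups `E⁰`, `E` a finite `E`-unitary inverse semigroup. -/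
def Separated (S : Type) [Semigroup S] : Prop :=
  ∀ a b : S, a ≠ b → ∃ (E : Type) (_ : Semigroup E) (_ : Finite E) (α : S →ₙ* WithZero E),
    IsEUnitary E ∧ α a ≠ α b

theorem embeds_sep {S : Type} [Semigroup S] [Finite S] (h : Separated S) : EmbFinite S := by
  classical
  have h' : ∀ p : {p : S × S // p.1 ≠ p.2}, ∃ (G : Type) (_ : Group G) (_ : Finite G)
      (ψ : S →ₙ* Set G), ψ p.1.1 ≠ ψ p.1.2 ∧ ∀ s, (ψ s).Nonempty := by
    rintro ⟨⟨a, b⟩, hab⟩
    obtain ⟨E, _, _, α, hE, hα⟩ := h a b hab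
    obtain ⟨G, hG, hGf, ψ, hinj, hne⟩ := embeds_zero (embeds' hE)
    exact ⟨G, hG, hGf, ψ.comp α, fun hh => hα (hinj hh), fun s => hne _⟩
  choose G hG hGf ψ hψ hne using h'
  have hfin : Finite (∀ p, G p) := Pi.finite
  refine ⟨∀ p, G p, inferInstance, hfin, ⟨fun s => {x | ∀ p, x p ∈ ψ p s}, ?_⟩, ?_, ?_⟩
  · intro s t
    apply Set.Subset.antisymm
    · intro z hz
      have h2 : ∀ p, ∃ x y, x ∈ ψ p s ∧ y ∈ ψ p t ∧ x * y = z p := by
        intro p
        have := hz p
        rw [map_mul] at this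
        obtain ⟨x, hx, y, hy, hxy⟩ := this
        exact ⟨x, y, hx, hy, hxy⟩
      choose x y hx hy hxy using h2
      exact ⟨x, hx, y, hy, funext hxy⟩
    · rintro _ ⟨x, hx, y, hy, rfl⟩ p
      rw [map_mul]
      exact ⟨x p, hx p, y p, hy p, rfl⟩
  · intro a b hab
    by_contra hne'
    apply hψ ⟨(a, b), hne'⟩
    have key : ∀ c d : S, ({x | ∀ p, x p ∈ ψ p c} : Set (∀ p, G p)) =
        {x | ∀ p, x p ∈ ψ p d} → ∀ q, ψ q c ⊆ ψ q d := by
      intro c d hcd q x hx
      choose y hy using fun p => hne p c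
      have : Function.update y q x ∈ ({x | ∀ p, x p ∈ ψ p c} : Set (∀ p, G p)) := by
        intro p
        by_cases hpq : p = q
        · subst hpq; simpa using hx
        · rw [Function.update_of_ne hpq]; exact hy p
      rw [hcd] at this
      simpa using this q
    exact Set.Subset.antisymm (key a b hab _) (key b a hab.symm _)
  · intro s
    choose y hy using fun p => hne p s
    exact ⟨y, hy⟩

end Pool.Agent.J4.H3.PS
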