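import Mathlib
import Pool.Agent.J4.H3.PS.Suf

set_option autoImplicit false

open Pointwise

namespace Pool.Agent.J4.H3.PS

/-- The group `K^(Γ × I) ⋊ Γ`. -/
@[ext] structure WK (Γ I K : Type) where
  v : Γ → I → K
  g : Γ

namespace WK

variable {Γ I K : Type} [Group Γ] [Group K]

instance : Mul (WK Γ I K) := ⟨fun x y => ⟨fun γ i => x.v γ i * y.v (x.g⁻¹ * γ) i, x.g * y.g⟩⟩
instance : One (WK Γ I K) := ⟨⟨fun _ _ => 1, 1⟩⟩
instance : Inv (WK Γ I K) := ⟨fun x => ⟨fun γ i => (x.v (x.g * γ) i)⁻¹, x.g⁻¹⟩⟩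

@[simp] theorem mul_g (x y : WK Γ I K) : (x * y).g = x.g * y.g := rfl
@[simp] theorem mul_v (x y : WK Γ I K) (γ : Γ) (i : I) :
    (x * y).v γ i = x.v γ i * y.v (x.g⁻¹ * γ) i := rfl
@[simp] theorem one_g : (1 : WK Γ I K).g = 1 := rfl
@[simp] theorem one_v (γ : Γ) (i : I) : (1 : WK Γ I K).v γ i = 1 := rfl
@[simp] theorem inv_g (x : WK Γ I K) : (x⁻¹).g = x.g⁻¹ := rfl
@[simp] theorem inv_v (x : WK Γ I K) (γ : Γ) (i : I) : (x⁻¹).v γ i = (x.v (x.g * γ) i)⁻¹ := rfl

instance : Group (WK Γ I K) := Group.ofLeftAxioms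
  (by
    intro x y z
    refine WK.ext ?_ ?_
    · funext γ i
      simp [mul_assoc]
    · simp [mul_assoc])
  (by
    intro x
    refine WK.ext ?_ ?_
    · funext γ i
      simp
    · simp)
  (by
    intro x
    refine WK.ext ?_ ?_
    · funext γ i
      show (x.v (x.g * γ) i)⁻¹ * x.v ((x.g⁻¹)⁻¹ * γ) i = 1
      rw [inv_inv, inv_mul_cancel]
    · simp)

instance [Finite Γ] [Finite I] [Finite K] : Finite (WK Γ I K) := by
  have : Function.Injective (fun x : WK Γ I K => (x.v, x.g)) := by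
    intro x y h
    simp only [Prod.mk.injEq] at h
    exact WK.ext h.1 h.2
  exact Finite.of_injective _ this

end WK

section Cocycle

variable {S : Type} [Semigroup S] {Γ I K : Type} [Group Γ] [Group K] (θ : S →ₙ* Γ)
  (V : S → Γ → I → Prop) (C : S → Γ → I → K)

/-- The subset of the group which represents `s`. -/
def Ψ (s : S) : Set (WK Γ I K) := {x | x.g = θ s ∧ ∀ γ i, V s γ i → x.v γ i = C s γ i}

theorem Ψ_mul (hV : ∀ s t γ i, V (s * t) γ i ↔ V s γ i ∧ V t ((θ s)⁻¹ * γ) i)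
    (hC : ∀ s t γ i, V (s * t) γ i → C (s * t) γ i = C s γ i * C t ((θ s)⁻¹ * γ) i) (s t : S) :
    Ψ θ V C (s * t) = Ψ θ V C s * Ψ θ V C t := by
  classical
  apply Set.Subset.antisymm
  · rintro z ⟨hz1, hz2⟩
    obtain ⟨yv, hyv⟩ : ∃ yv : Γ → I → K, yv = fun δ i => if V t δ i then C t δ i else
      if V s (θ s * δ) i then (C s (θ s * δ) i)⁻¹ * z.v (θ s * δ) i else 1 := ⟨_, rfl⟩
    refine ⟨⟨fun γ i => if V s γ i then C s γ i else z.v γ i * (yv ((θ s)⁻¹ * γ) i)⁻¹, θ s⟩,
      ⟨rfl, ?_⟩, ⟨yv, θ t⟩, ⟨rfl, ?_⟩, ?_⟩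
    · intro γ i h
      simp [h]
    · intro δ i h
      simp [hyv, h]
    · refine WK.ext ?_ ?_
      · funext γ i
        show (if V s γ i then C s γ i else z.v γ i * (yv ((θ s)⁻¹ * γ) i)⁻¹) *
          yv ((θ s)⁻¹ * γ) i = z.v γ i
        by_cases h3 : V s γ i
        · rw [if_pos h3, hyv]
          by_cases h4 : V t ((θ s)⁻¹ * γ) i
          · simp only [if_pos h4]
            have h5 : V (s * t) γ i := (hV s t γ i).2 ⟨h3, h4⟩
            rw [hz2 _ _ h5, hC _ _ _ _ h5]
          · simp only [if_neg h4, mul_inv_cancel_left, if_pos h3]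
        · rw [if_neg h3, inv_mul_cancel_right]
      · show θ s * θ t = z.g
        rw [hz1, map_mul]
  · rintro z ⟨x, ⟨hx1, hx2⟩, y, ⟨hy1, hy2⟩, rfl⟩
    refine ⟨?_, ?_⟩
    · show x.g * y.g = _
      rw [hx1, hy1, map_mul]
    · intro γ i h
      show x.v γ i * y.v (x.g⁻¹ * γ) i = _
      rw [hC _ _ _ _ h]
      rw [hV] at h
      rw [hx1, hx2 _ _ h.1, hy2 _ _ h.2]

theorem Ψ_ne (s : S) : (Ψ θ V C s).Nonempty := by
  classical
  exact ⟨⟨fun γ i => C s γ i, θ s⟩, rfl, fun _ _ _ => rfl⟩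

theorem Ψ_eq [Nontrivial K] {s t : S} (h : Ψ θ V C s = Ψ θ V C t) : θ s = θ t ∧
    ∀ γ i, V s γ i → V t γ i ∧ C s γ i = C t γ i := by
  classical
  have h0 : (⟨fun γ i => C t γ i, θ t⟩ : WK Γ I K) ∈ Ψ θ V C t := ⟨rfl, fun _ _ _ => rfl⟩
  have h0' := h0
  rw [← h] at h0'
  refine ⟨h0'.1.symm, fun γ i hs => ?_⟩
  have hC : C s γ i = C t γ i := (h0'.2 γ i hs).symm
  refine ⟨?_, hC⟩
  by_contra hcon
  obtain ⟨k, hk⟩ := exists_ne (C s γ i)
  have h4 : (⟨fun γ' i' => if γ' = γ ∧ i' = i then k else C t γ' i', θ t⟩ : WK Γ I K) ∈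
      Ψ θ V C t := by
    refine ⟨rfl, fun γ' i' hU' => ?_⟩
    have : ¬ (γ' = γ ∧ i' = i) := by
      rintro ⟨rfl, rfl⟩
      exact hcon hU'
    simp [this]
  rw [← h] at h4
  have := h4.2 γ i hs
  simp at this
  exact hk this

end Cocycle

section Kappa

variable {S : Type} [Semigroup S] (inv : S → S) (h1 : ∀ a, a * inv a * a = a)
  (h2 : ∀ a, inv a * a * inv a = inv a) (hc : ∀ e f : S, e * e = e → f * f = f → e * f = f * e)

open Classical in
/-- Left multiplication by an element of the maximal subgroup at `a`, extended by the identity. -/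
noncomputable def κ (a h : S) : Equiv.Perm S :=
  if hh : h * inv h = a ∧ inv h * h = a ∧ a * a = a ∧ a * h = h ∧ a * inv h = inv h then
    { toFun := fun x => if a * x = x then h * x else x
      invFun := fun x => if a * x = x then inv h * x else x
      left_inv := by
        obtain ⟨k1, k2, k3, k4, k5⟩ := hh
        intro x
        by_cases hx : a * x = x
        · have : a * (h * x) = h * x := by rw [← mul_assoc, k4]
          simp only [if_pos hx, if_pos this]
          rw [← mul_assoc, k2, hx]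
        · simp [hx]
      right_inv := by
        obtain ⟨k1, k2, k3, k4, k5⟩ := hh
        intro x
        by_cases hx : a * x = x
        · have : a * (inv h * x) = inv h * x := by rw [← mul_assoc, k5]
          simp only [if_pos hx, if_pos this]
          rw [← mul_assoc, k1, hx]
        · simp [hx] }
  else 1

/-- `h` lies in the maximal subgroup at `a`. -/
def InH (a h : S) : Prop := h * inv h = a ∧ inv h * h = a ∧ a * a = a ∧ a * h = h ∧
  a * inv h = inv h

include h1 h2 in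
theorem inH_of {a h : S} (k1 : h * inv h = a) (k2 : inv h * h = a) : InH inv a h := by
  refine ⟨k1, k2, ?_, ?_, ?_⟩
  · rw [← k1]; exact idR inv h1 h
  · rw [← k1, h1]
  · rw [← k2, h2]

open Classical in
theorem κ_apply {a h : S} (hh : InH inv a h) (x : S) :
    κ inv a h x = if a * x = x then h * x else x := by
  have : κ inv a h = _ := dif_pos hh
  rw [this]
  rfl

include h1 h2 hc in
theorem inH_mul {a h k : S} (hh : InH inv a h) (hk : InH inv a k) : InH inv a (h * k) := by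
  apply inH_of inv h1 h2
  · rw [inv_mul' inv h1 h2 hc]
    calc h * k * (inv k * inv h) = h * ((k * inv k) * inv h) := by simp only [mul_assoc]
      _ = h * (a * inv h) := by rw [hk.1]
      _ = a := by rw [hh.2.2.2.2, hh.1]
  · rw [inv_mul' inv h1 h2 hc]
    calc inv k * inv h * (h * k) = inv k * ((inv h * h) * k) := by simp only [mul_assoc]
      _ = inv k * (a * k) := by rw [hh.2.1]
      _ = a := by rw [hk.2.2.2.1, hk.2.1]

include h1 h2 hc in
theorem κ_mul {a h k : S} (hh : InH inv a h) (hk : InH inv a k) :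
    κ inv a (h * k) = κ inv a h * κ inv a k := by
  classical
  ext x
  rw [Equiv.Perm.mul_apply, κ_apply inv hh, κ_apply inv hk,
    κ_apply inv (inH_mul inv h1 h2 hc hh hk)]
  by_cases hx : a * x = x
  · have : a * (k * x) = k * x := by rw [← mul_assoc, hk.2.2.2.1]
    simp only [if_pos hx, if_pos this, mul_assoc]
  · simp only [if_neg hx]

include h1 in
theorem κ_inj {a h k : S} (hh : InH inv a h) (hk : InH inv a k)
    (e : κ inv a h = κ inv a k) : h = k := by
  classical
  have e1 : κ inv a h a = κ inv a k a := by rw [e]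
  rw [κ_apply inv hh, κ_apply inv hk, if_pos hh.2.2.1, if_pos hh.2.2.1] at e1
  have e2 : h * a = h := by rw [← hh.2.1, ← mul_assoc, h1]
  have e3 : k * a = k := by rw [← hk.2.1, ← mul_assoc, h1]
  rw [← e2, e1, e3]

end Kappa

end Pool.Agent.J4.H3.PS
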