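import Mathlib
import Pool.Agent.J4.H3.PS.Atoms

set_option autoImplicit false

open Pointwise

namespace Pool.Agent.J4.H3.PS

/-- `a` is an atom over `z`: an idempotent which covers the idempotent `z`. -/
def IsAtomOver {S : Type} [Semigroup S] (z a : S) : Prop :=
  a * a = a ∧ a ≠ z ∧ ∀ e : S, e * e = e → a * e = a ∨ a * e = z

section

variable {S : Type} [Semigroup S] (inv : S → S) (h1 : ∀ a, a * inv a * a = a)
  (h2 : ∀ a, inv a * a * inv a = inv a) (hc : ∀ e f : S, e * e = e → f * f = f → e * f = f * e)

include h1 h2 hc in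
theorem inv_inv' (a : S) : inv (inv a) = a :=
  uniq hc (h1 _) (h2 _) (h2 a) (h1 a)

variable (z : S) (hz : z * z = z) (hmin : ∀ e : S, e * e = e → e * z = z)

include h1 h2 hc hz hmin in
theorem central (s : S) : s * z = z * s := by
  have a1 := hmin _ (idR inv h1 s)
  have a2 := hmin _ (idL inv h1 s)
  have c2 := hc _ _ (idL inv h1 s) hz
  have e1 : (s * z * inv s) * (s * z * inv s) = s * z * inv s := by
    calc (s * z * inv s) * (s * z * inv s) = s * z * ((inv s * s) * z) * inv s := by
          simp only [mul_assoc]
      _ = s * (z * z) * inv s := by rw [a2, mul_assoc s z z]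
      _ = s * z * inv s := by rw [hz]
  have e2 : (inv s * z * s) * (inv s * z * s) = inv s * z * s := by
    calc (inv s * z * s) * (inv s * z * s) = inv s * z * ((s * inv s) * z) * s := by
          simp only [mul_assoc]
      _ = inv s * (z * z) * s := by rw [a1, mul_assoc (inv s) z z]
      _ = inv s * z * s := by rw [hz]
  have b1 : z * (s * z * inv s) = z := by rw [hc _ _ hz e1]; exact hmin _ e1
  have b2 := hmin _ e2
  have k1 : z * s = z * s * z := by
    calc z * s = z * (s * z * inv s) * s := by rw [b1]
      _ = z * s * (z * (inv s * s)) := by simp only [mul_assoc]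
      _ = z * s * z := by rw [← c2, a2]
  have k2 : s * z = z * s * z := by
    calc s * z = s * (inv s * z * s * z) := by rw [b2]
      _ = ((s * inv s) * z) * (s * z) := by simp only [mul_assoc]
      _ = z * s * z := by rw [a1, mul_assoc]
  rw [k2, ← k1]

/-- The action on the kernel. -/
def θ0 (hcen : ∀ s : S, s * z = z * s) (hl : ∀ s, inv s * s * z = z) (hr : ∀ s, s * inv s * z = z) :
    S →ₙ* Equiv.Perm {w : S // z * w = w} where
  toFun s :=
    { toFun := fun w => ⟨s * w.1, by rw [← mul_assoc, ← hcen, mul_assoc, w.2]⟩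
      invFun := fun w => ⟨inv s * w.1, by rw [← mul_assoc, ← hcen, mul_assoc, w.2]⟩
      left_inv := fun w => Subtype.ext (by
        show inv s * (s * w.1) = w.1
        rw [← w.2, ← mul_assoc, ← mul_assoc, hl])
      right_inv := fun w => Subtype.ext (by
        show s * (inv s * w.1) = w.1
        rw [← w.2, ← mul_assoc, ← mul_assoc, hr]) }
  map_mul' := fun s t => Equiv.ext fun w => Subtype.ext (mul_assoc _ _ _)

include hz in
theorem θ0_eq (hcen : ∀ s : S, s * z = z * s) (hl : ∀ s, inv s * s * z = z)
    (hr : ∀ s, s * inv s * z = z) (s t : S) :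
    θ0 inv z hcen hl hr s = θ0 inv z hcen hl hr t ↔ s * z = t * z := by
  constructor
  · intro h
    have := congrArg (fun π : Equiv.Perm {w : S // z * w = w} => (π ⟨z, hz⟩).1) h
    exact this
  · intro h
    refine Equiv.ext fun w => Subtype.ext ?_
    show s * w.1 = t * w.1
    rw [← w.2, ← mul_assoc, ← mul_assoc, h]

variable {Γ : Type} [Group Γ] (θ : S →ₙ* Γ)

include h1 hc in
/-- Continuing a path. -/
theorem path {a u s : S} (ha : a * a = a) (hu : a * (u * inv u) = a) :
    a * u = u * (inv u * a * u) := by
  have c := hc _ _ ha (idR inv h1 u)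
  calc a * u = (a * (u * inv u)) * u := by rw [hu]
    _ = ((u * inv u) * a) * u := by rw [c]
    _ = u * (inv u * a * u) := by simp only [mul_assoc]

include h1 hc in
theorem idem_conj {a u : S} (ha : a * a = a) (hu : a * (u * inv u) = a) :
    (inv u * a * u) * (inv u * a * u) = inv u * a * u := by
  calc (inv u * a * u) * (inv u * a * u) = inv u * (a * (u * inv u)) * a * u := by
        simp only [mul_assoc]
    _ = inv u * (a * a) * u := by rw [hu, mul_assoc (inv u) a a]
    _ = inv u * a * u := by rw [ha]

include h1 h2 hc in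
theorem path2 {a u s : S} (ha : a * a = a) (hu : a * (u * inv u) = a)
    (hs : (inv u * a * u) * (s * inv s) = inv u * a * u) :
    a * ((u * s) * inv (u * s)) = a ∧ inv (u * s) * a * (u * s) = inv s * (inv u * a * u) * s := by
  rw [inv_mul' inv h1 h2 hc]
  have p := path inv h1 hc (s := s) ha hu
  constructor
  · calc a * (u * s * (inv s * inv u)) = (a * u) * (s * inv s) * inv u := by simp only [mul_assoc]
      _ = u * ((inv u * a * u) * (s * inv s)) * inv u := by rw [p]; simp only [mul_assoc]
      _ = (u * (inv u * a * u)) * inv u := by rw [hs]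
      _ = a * (u * inv u) := by rw [← p, mul_assoc]
      _ = a := hu
  · simp only [mul_assoc]

include h1 h2 hc in
/-- Loops lie in the maximal subgroup. -/
theorem loop {a p w : S} (ha : a * a = a) (hp : a * (p * inv p) = a) (hw : a * (w * inv w) = a)
    (hpw : inv p * a * p = inv w * a * w) : InH inv a (a * p * inv w) := by
  have hinv : inv (a * p * inv w) = w * inv p * a := by
    rw [inv_mul' inv h1 h2 hc, inv_mul' inv h1 h2 hc, inv_inv' inv h1 h2 hc,
      inv_idem inv h1 h2 hc ha, mul_assoc]
  have pp := path inv h1 hc (s := p) ha hp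
  have cw := hc _ _ ha (idR inv h1 w)
  apply inH_of inv h1 h2
  · rw [hinv]
    calc a * p * inv w * (w * inv p * a) = (a * p) * (inv w * w) * (inv p * a) := by
          simp only [mul_assoc]
      _ = p * ((inv p * a * p) * (inv w * w)) * (inv p * a) := by rw [pp]; simp only [mul_assoc]
      _ = p * ((inv w * a) * (w * inv w * w)) * (inv p * a) := by rw [hpw]; simp only [mul_assoc]
      _ = p * (inv p * a * p) * (inv p * a) := by rw [h1, ← hpw]
      _ = (a * (p * inv p)) * a := by rw [← pp]; simp only [mul_assoc]
      _ = a := by rw [hp, ha]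
  · rw [hinv]
    calc w * inv p * a * (a * p * inv w) = w * (inv p * (a * a) * p) * inv w := by
          simp only [mul_assoc]
      _ = w * (inv w * a * w) * inv w := by rw [ha, hpw]
      _ = ((w * inv w) * a) * (w * inv w) := by simp only [mul_assoc]
      _ = a := by rw [← cw, hw, hw]

end

end Pool.Agent.J4.H3.PS
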