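import Mathlib
import Pool.Agent.J4.H3.PS.AtomsB

set_option autoImplicit false

open Pointwise

namespace Pool.Agent.J4.H3.PS

section

variable {S : Type} [Semigroup S] (inv : S → S) (h1 : ∀ a, a * inv a * a = a)
  (h2 : ∀ a, inv a * a * inv a = inv a) (hc : ∀ e f : S, e * e = e → f * f = f → e * f = f * e)
  (z : S) {Γ : Type} [Group Γ] (θ : S →ₙ* Γ) (hθ : ∀ s t, θ s = θ t ↔ s * z = t * z)
  (hA : ∀ p w a : S, IsAtomOver z a → p * z = w * z → a * (p * inv p) = a → a * (w * inv w) = a →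
    inv p * a * p = inv w * a * w)

def RR (γ : Γ) (a u : S) : Prop := θ u = γ⁻¹ ∧ a * (u * inv u) = a

open Classical in
noncomputable def u0 (γ : Γ) (a : S) : S := if h : ∃ u, RR inv θ γ a u then h.choose else a

theorem u0_spec {γ : Γ} {a u : S} (h : RR inv θ γ a u) : RR inv θ γ a (u0 inv θ γ a) := by
  have h' : ∃ u, RR inv θ γ a u := ⟨u, h⟩
  have e : u0 inv θ γ a = h'.choose := dif_pos h'
  rw [e]
  exact h'.choose_spec

def VV (s : S) (γ : Γ) (a : S) : Prop :=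
  IsAtomOver z a ∧ ∃ u, RR inv θ γ a u ∧ (inv u * a * u) * (s * inv s) = inv u * a * u

include hθ hA in
theorem same {γ : Γ} {a u w : S} (ha : IsAtomOver z a) (hu : RR inv θ γ a u)
    (hw : RR inv θ γ a w) : inv u * a * u = inv w * a * w :=
  hA _ _ _ ha ((hθ _ _).1 (hu.1.trans hw.1.symm)) hu.2 hw.2

include hθ hA in
theorem VV_u0 {s : S} {γ : Γ} {a : S} (h : VV inv z θ s γ a) : RR inv θ γ a (u0 inv θ γ a) ∧
    (inv (u0 inv θ γ a) * a * u0 inv θ γ a) * (s * inv s) =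
      inv (u0 inv θ γ a) * a * u0 inv θ γ a := by
  obtain ⟨ha, u, hu, hs⟩ := h
  have h3 := u0_spec inv θ hu
  refine ⟨h3, ?_⟩
  rw [same inv z θ hθ hA ha h3 hu]
  exact hs

include h1 h2 hc in
theorem RR_mul {s : S} {γ : Γ} {a u : S} (ha : a * a = a) (hu : RR inv θ γ a u)
    (hs : (inv u * a * u) * (s * inv s) = inv u * a * u) :
    RR inv θ ((θ s)⁻¹ * γ) a (u * s) :=
  ⟨by rw [map_mul, hu.1, mul_inv_rev, inv_inv], (path2 inv h1 h2 hc ha hu.2 hs).1⟩

include h1 h2 hc hθ hA in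
theorem VV_mul (s t : S) (γ : Γ) (a : S) :
    VV inv z θ (s * t) γ a ↔ VV inv z θ s γ a ∧ VV inv z θ t ((θ s)⁻¹ * γ) a := by
  have hst : (s * t) * inv (s * t) = s * (t * inv t) * inv s := by
    rw [inv_mul' inv h1 h2 hc]; simp only [mul_assoc]
  constructor
  · rintro ⟨ha, u, hu, hu3⟩
    rw [hst] at hu3
    have hb := idem_conj inv h1 hc ha.1 hu.2
    have hbs : (inv u * a * u) * (s * inv s) = inv u * a * u := by
      calc (inv u * a * u) * (s * inv s)
          = (inv u * a * u) * (s * (t * inv t) * inv s) * (s * inv s) := by rw [hu3]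
        _ = (inv u * a * u) * (s * (t * inv t) * (inv s * s * inv s)) := by simp only [mul_assoc]
        _ = inv u * a * u := by rw [h2, hu3]
    refine ⟨⟨ha, u, hu, hbs⟩, ha, u * s, RR_mul inv h1 h2 hc θ ha.1 hu hbs, ?_⟩
    rw [(path2 inv h1 h2 hc ha.1 hu.2 hbs).2]
    have c := hc _ _ (idR inv h1 t) (idL inv h1 s)
    obtain ⟨b, hbb⟩ : ∃ b, b = inv u * a * u := ⟨_, rfl⟩
    rw [← hbb] at hu3 hbs hb ⊢
    calc inv s * b * s * (t * inv t) = inv s * b * (s * inv s * s) * (t * inv t) := by rw [h1]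
      _ = inv s * b * s * ((inv s * s) * (t * inv t)) := by simp only [mul_assoc]
      _ = inv s * b * s * ((t * inv t) * (inv s * s)) := by rw [c]
      _ = inv s * (b * (s * (t * inv t) * inv s)) * s := by simp only [mul_assoc]
      _ = inv s * b * s := by rw [hu3]
  · rintro ⟨⟨ha, u, hu, hu3⟩, -, w, hw, hw3⟩
    have hb := idem_conj inv h1 hc ha.1 hu.2
    have h5 := same inv z θ hθ hA ha (RR_mul inv h1 h2 hc θ ha.1 hu hu3) hw
    rw [(path2 inv h1 h2 hc ha.1 hu.2 hu3).2] at h5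
    refine ⟨ha, u, hu, ?_⟩
    rw [hst]
    rw [← h5] at hw3
    obtain ⟨b, hbb⟩ : ∃ b, b = inv u * a * u := ⟨_, rfl⟩
    rw [← hbb] at hu3 hb hw3 ⊢
    have c := hc _ _ hb (idR inv h1 s)
    have e1 : b = s * (inv s * b * s) * inv s := by
      calc b = b * (s * inv s) := hu3.symm
        _ = b * (s * inv s) * (s * inv s) := by rw [hu3, hu3]
        _ = (s * inv s) * b * (s * inv s) := by rw [c]
        _ = s * (inv s * b * s) * inv s := by simp only [mul_assoc]
    calc b * (s * (t * inv t) * inv s) = b * (s * inv s) * (s * (t * inv t) * inv s) := by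
          rw [hu3]
      _ = (s * inv s) * b * (s * (t * inv t) * inv s) := by rw [c]
      _ = s * ((inv s * b * s) * (t * inv t)) * inv s := by simp only [mul_assoc]
      _ = s * (inv s * b * s) * inv s := by rw [hw3]
      _ = b := e1.symm

noncomputable def CC (s : S) (γ : Γ) (a : S) : Equiv.Perm S × Multiplicative (ZMod 2) :=
  (κ inv a (a * (u0 inv θ γ a * s) * inv (u0 inv θ ((θ s)⁻¹ * γ) a)), 1)

include h1 h2 hc hθ hA in
theorem step_spec {s : S} {γ : Γ} {a : S} (h : VV inv z θ s γ a) :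
    a * ((u0 inv θ γ a * s) * inv (u0 inv θ γ a * s)) = a ∧
    a * (u0 inv θ ((θ s)⁻¹ * γ) a * inv (u0 inv θ ((θ s)⁻¹ * γ) a)) = a ∧
    inv (u0 inv θ γ a * s) * a * (u0 inv θ γ a * s) =
      inv (u0 inv θ ((θ s)⁻¹ * γ) a) * a * u0 inv θ ((θ s)⁻¹ * γ) a := by
  obtain ⟨k1, k2⟩ := VV_u0 inv z θ hθ hA h
  have k3 := RR_mul inv h1 h2 hc θ h.1.1 k1 k2
  have k4 := u0_spec inv θ k3
  exact ⟨k3.2, k4.2, same inv z θ hθ hA h.1 k3 k4⟩

theorem ap {a p : S} (ha : a * a = a) (hp : a * (p * inv p) = a) :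
    a * p * (inv p * a * p) = a * p := by
  calc a * p * (inv p * a * p) = (a * (p * inv p)) * a * p := by simp only [mul_assoc]
    _ = a * p := by rw [hp, ha]

include h1 h2 hc hθ hA in
theorem CC_mul (s t : S) (γ : Γ) (a : S) (h : VV inv z θ (s * t) γ a) :
    CC inv θ (s * t) γ a = CC inv θ s γ a * CC inv θ t ((θ s)⁻¹ * γ) a := by
  have hb := (VV_mul inv h1 h2 hc z θ hθ hA s t γ a).1 h
  obtain ⟨a1, a2, a3⟩ := step_spec inv h1 h2 hc z θ hθ hA hb.1
  obtain ⟨b1, b2, b3⟩ := step_spec inv h1 h2 hc z θ hθ hA hb.2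
  have l1 := loop inv h1 h2 hc h.1.1 a1 a2 a3
  have l2 := loop inv h1 h2 hc h.1.1 b1 b2 b3
  have e : (θ (s * t))⁻¹ * γ = (θ t)⁻¹ * ((θ s)⁻¹ * γ) := by
    rw [map_mul, mul_inv_rev, mul_assoc]
  unfold CC
  rw [e]
  refine Prod.ext ?_ (by simp)
  show κ inv a _ = κ inv a _ * κ inv a _
  rw [← κ_mul inv h1 h2 hc l1 l2]
  congr 1
  obtain ⟨u, hu⟩ : ∃ u, u = u0 inv θ γ a := ⟨_, rfl⟩
  obtain ⟨u', hu'⟩ : ∃ u', u' = u0 inv θ ((θ s)⁻¹ * γ) a := ⟨_, rfl⟩
  obtain ⟨u'', hu''⟩ : ∃ u'', u'' = u0 inv θ ((θ t)⁻¹ * ((θ s)⁻¹ * γ)) a := ⟨_, rfl⟩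
  rw [← hu, ← hu', ← hu'']
  rw [← hu] at a1 a3
  rw [← hu'] at a3
  have hap := ap inv h.1.1 a1
  calc a * (u * (s * t)) * inv u'' = (a * (u * s)) * (t * inv u'') := by simp only [mul_assoc]
    _ = (a * (u * s) * (inv (u * s) * a * (u * s))) * (t * inv u'') := by rw [hap]
    _ = (a * (u * s) * (inv u' * a * u')) * (t * inv u'') := by rw [a3]
    _ = a * (u * s) * inv u' * (a * (u' * t) * inv u'') := by simp only [mul_assoc]

include h1 h2 hc hθ hA in
theorem Ψ_inj (hz : z * z = z) (hmin : ∀ e : S, e * e = e → e * z = z)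
    (hsep : ∀ s t : S, s * z = t * z → (∀ a, IsAtomOver z a → a * s = a * t) → s = t) :
    Function.Injective (Ψ θ (VV inv z θ) (CC inv θ)) := by
  intro s t h
  obtain ⟨e1, e2⟩ := Ψ_eq _ _ _ h
  obtain ⟨-, e3⟩ := Ψ_eq _ _ _ h.symm
  have hst : s * z = t * z := (hθ s t).1 e1
  apply hsep s t hst
  intro a ha
  have hθa : θ a = 1 := by
    have := congrArg θ ha.1
    rw [map_mul] at this
    exact mul_eq_right.mp this
  have hia := inv_idem inv h1 h2 hc ha.1
  have hR : RR inv θ 1 a a := ⟨by rw [hθa, inv_one], by rw [hia, ha.1, ha.1]⟩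
  have hR0 := u0_spec inv θ hR
  have hbu : inv (u0 inv θ 1 a) * a * u0 inv θ 1 a = a := by
    rw [same inv z θ hθ hA ha hR0 hR, hia, ha.1, ha.1]
  have hVs : ∀ s : S, a * (s * inv s) = a → VV inv z θ s 1 a := fun s hs =>
    ⟨ha, a, hR, by rw [hia, ha.1, ha.1, hs]⟩
  have hVs' : ∀ s : S, VV inv z θ s 1 a → a * (s * inv s) = a := fun s hs => by
    have := (VV_u0 inv z θ hθ hA hs).2
    rwa [hbu] at this
  by_cases hs : a * (s * inv s) = a
  · have hV := hVs s hs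
    obtain ⟨hVt, hCC⟩ := e2 1 a hV
    obtain ⟨a1, a2, a3⟩ := step_spec inv h1 h2 hc z θ hθ hA hV
    obtain ⟨b1, b2, b3⟩ := step_spec inv h1 h2 hc z θ hθ hA hVt
    have l1 := loop inv h1 h2 hc ha.1 a1 a2 a3
    have l2 := loop inv h1 h2 hc ha.1 b1 b2 b3
    have hk := congrArg Prod.fst hCC
    have hk' := κ_inj inv h1 l1 l2 hk
    rw [← e1] at hk' b2 b3
    obtain ⟨u, hu⟩ : ∃ u, u = u0 inv θ 1 a := ⟨_, rfl⟩
    obtain ⟨u', hu'⟩ : ∃ u', u' = u0 inv θ ((θ s)⁻¹ * 1) a := ⟨_, rfl⟩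
    rw [← hu'] at hk' a2 a3 b2 b3
    rw [← hu] at hk' a1 a3 b1 b3 hbu
    have key : ∀ p : S, a * (p * inv p) = a → inv p * a * p = inv u' * a * u' →
        a * p * inv u' * u' = a * p := by
      intro p hp hpp
      calc a * p * inv u' * u' = (a * p * (inv p * a * p)) * (inv u' * u') := by
            rw [ap inv ha.1 hp]; simp only [mul_assoc]
        _ = a * p * (inv u' * a * (u' * inv u' * u')) := by rw [hpp]; simp only [mul_assoc]
        _ = a * p * (inv p * a * p) := by rw [h1, hpp]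
        _ = a * p := ap inv ha.1 hp
    have k1 := key (u * s) a1 a3
    have k2 := key (u * t) b1 b3
    rw [hk', k2] at k1
    calc a * s = (inv u * a * u) * s := by rw [hbu]
      _ = inv u * (a * (u * s)) := by simp only [mul_assoc]
      _ = inv u * (a * (u * t)) := by rw [k1]
      _ = (inv u * a * u) * t := by simp only [mul_assoc]
      _ = a * t := by rw [hbu]
  · have ht : a * (t * inv t) ≠ a := fun ht => hs (hVs' s (e3 1 a (hVs t ht)).1)
    have z1 : a * (s * inv s) = z := (ha.2.2 _ (idR inv h1 s)).resolve_left hs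
    have z2 : a * (t * inv t) = z := (ha.2.2 _ (idR inv h1 t)).resolve_left ht
    calc a * s = (a * (s * inv s)) * s := by rw [mul_assoc, h1]
      _ = s * z := by rw [z1, central inv h1 h2 hc z hz hmin]
      _ = t * z := hst
      _ = (a * (t * inv t)) * t := by rw [z2, central inv h1 h2 hc z hz hmin]
      _ = a * t := by rw [mul_assoc, h1]

end

end Pool.Agent.J4.H3.PS
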