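import Mathlib

set_option autoImplicit false

open Pointwise

namespace Pool.Agent.J4.H3.PS

/-- A nonempty idempotent subset of a periodic group contains `1` and is closed under inverses. -/
theorem idem_set {G : Type*} [Group G] (hG : IsMulTorsion G) {E : Set G} (hE : E * E = E)
    (hne : E.Nonempty) : (1 : G) ∈ E ∧ ∀ x ∈ E, x⁻¹ ∈ E := by
  have hpow : ∀ x ∈ E, ∀ n : ℕ, x ^ (n + 1) ∈ E := by
    intro x hx n
    induction n with
    | zero => simpa using hx
    | succ n ih =>
      rw [pow_succ]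
      have := Set.mul_mem_mul ih hx
      rwa [hE] at this
  have hone : ∀ x ∈ E, (1 : G) ∈ E := by
    intro x hx
    have h0 : 0 < orderOf x := (hG x).orderOf_pos
    have := hpow x hx (orderOf x - 1)
    rwa [Nat.sub_add_cancel h0, pow_orderOf_eq_one] at this
  refine ⟨hone _ hne.choose_spec, fun x hx => ?_⟩
  have h0 : 0 < orderOf x := (hG x).orderOf_pos
  by_cases h1 : orderOf x = 1
  · rw [orderOf_eq_one_iff] at h1
    subst h1
    simpa using hx
  · have := hpow x hx (orderOf x - 2)
    have h2 : x ^ (orderOf x - 2 + 1) = x⁻¹ := by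
      have h3 : x ^ (orderOf x - 2 + 1) * x = 1 := by
        rw [← pow_succ, show orderOf x - 2 + 1 + 1 = orderOf x by omega, pow_orderOf_eq_one]
      exact eq_inv_of_mul_eq_one_left h3
    rwa [h2] at this

section

variable {G : Type*} [Group G]

theorem nonempty_pow {A : Set G} (hA : A.Nonempty) (n : ℕ) : (A ^ n).Nonempty := by
  induction n with
  | zero => exact ⟨1, by simp⟩
  | succ n ih => rw [pow_succ]; exact ih.mul hA

/-- The quasi-identity. -/
theorem quasi (hG : IsMulTorsion G) (T : Subsemigroup (Set G))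
    (hinv : ∀ A ∈ T, ∃ B ∈ T, A * B * A = A ∧ B * A * B = B)
    (hcom : ∀ E ∈ T, ∀ F ∈ T, E * E = E → F * F = F → E * F = F * E)
    {A : Set G} (hA : A ∈ T) (m r : ℕ) (hm : 1 ≤ m) (hr : 1 ≤ r) (h : A ^ (m + r) = A ^ m) :
    A ^ r * A ^ r = A ^ r := by
  classical
  rcases Set.eq_empty_or_nonempty A with hAe | hAne
  · subst hAe
    obtain ⟨r, rfl⟩ : ∃ q, r = q + 1 := ⟨r - 1, by omega⟩
    simp [pow_succ]
  obtain ⟨B, hB, hABA, hBAB⟩ := hinv A hA
  have hBne : B.Nonempty := by
    rw [← hABA] at hAne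
    exact hAne.of_mul_left.of_mul_right
  -- powers lie in T
  have hpT : ∀ C ∈ T, ∀ n : ℕ, 1 ≤ n → C ^ n ∈ T := by
    intro C hC n hn
    induction n, hn using Nat.le_induction with
    | base => simpa using hC
    | succ n hn ih => rw [pow_succ]; exact T.mul_mem ih hC
  -- basic: AB, BA idempotents
  have e1 : (A * B) * (A * B) = A * B := by rw [← mul_assoc, hABA]
  have f1 : (B * A) * (B * A) = B * A := by rw [← mul_assoc, hBAB]
  have key : ∀ n : ℕ, 1 ≤ n → A ^ n * B ^ n * A ^ n = A ^ n ∧ B ^ n * A ^ n * B ^ n = B ^ n := by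
    intro n hn
    induction n, hn using Nat.le_induction with
    | base => simpa using ⟨hABA, hBAB⟩
    | succ n hn ih =>
      obtain ⟨i1, i2⟩ := ih
      have en : (A ^ n * B ^ n) * (A ^ n * B ^ n) = A ^ n * B ^ n := by rw [← mul_assoc, i1]
      have fn : (B ^ n * A ^ n) * (B ^ n * A ^ n) = B ^ n * A ^ n := by rw [← mul_assoc, i2]
      have enT : A ^ n * B ^ n ∈ T := T.mul_mem (hpT A hA n hn) (hpT B hB n hn)
      have fnT : B ^ n * A ^ n ∈ T := T.mul_mem (hpT B hB n hn) (hpT A hA n hn)
      have e1T : A * B ∈ T := T.mul_mem hA hB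
      have f1T : B * A ∈ T := T.mul_mem hB hA
      constructor
      · -- A^(n+1) B^(n+1) A^(n+1) = A^n (A B) (B^n A^n) A
        have c := hcom _ e1T _ fnT e1 fn
        calc A ^ (n + 1) * B ^ (n + 1) * A ^ (n + 1)
            = A ^ n * ((A * B) * (B ^ n * A ^ n)) * A := by
              rw [pow_succ A n, pow_succ' B n]; simp only [mul_assoc]
          _ = A ^ n * ((B ^ n * A ^ n) * (A * B)) * A := by rw [c]
          _ = (A ^ n * B ^ n * A ^ n) * (A * B * A) := by simp only [mul_assoc]
          _ = A ^ (n + 1) := by rw [i1, hABA, pow_succ]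
      · have c := hcom _ f1T _ enT f1 en
        calc B ^ (n + 1) * A ^ (n + 1) * B ^ (n + 1)
            = B ^ n * ((B * A) * (A ^ n * B ^ n)) * B := by
              rw [pow_succ B n, pow_succ' A n]; simp only [mul_assoc]
          _ = B ^ n * ((A ^ n * B ^ n) * (B * A)) * B := by rw [c]
          _ = (B ^ n * A ^ n * B ^ n) * (B * A * B) := by simp only [mul_assoc]
          _ = B ^ (n + 1) := by rw [i2, hBAB, pow_succ]
  have hmr : m ≤ m * r := Nat.le_mul_of_pos_right m hr
  have hrm : r ≤ m * r := Nat.le_mul_of_pos_left r hm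
  have hstab : ∀ k n : ℕ, m ≤ n → A ^ (n + k * r) = A ^ n := by
    intro k
    induction k with
    | zero => intro n _; simp
    | succ k ih =>
      intro n hn
      obtain ⟨i, rfl⟩ := Nat.exists_eq_add_of_le hn
      have h1 : A ^ (m + i + r) = A ^ (m + i) := by
        rw [show m + i + r = i + (m + r) by ring, pow_add, h, ← pow_add, add_comm i m]
      rw [show m + i + (k + 1) * r = (m + i + r) + k * r by ring, ih _ (by omega), h1]
  obtain ⟨z, hz⟩ : ∃ z, z = A ^ (m * r) := ⟨_, rfl⟩
  have hzz : z * z = z := by rw [hz, ← pow_add, hstab m _ hmr]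
  have hzT : z ∈ T := by rw [hz]; exact hpT A hA _ (hm.trans hmr)
  have hzr : A ^ r * z = z := by
    rw [hz, ← pow_add, show r + m * r = m * r + 1 * r by ring, hstab 1 _ hmr]
  have hzr' : z * A ^ r = z := by
    rw [hz, ← pow_add, show m * r + r = m * r + 1 * r by ring, hstab 1 _ hmr]
  have hzc : z * A = A * z := by rw [hz, ← pow_succ, ← pow_succ']
  have hBz : B ^ (m * r) = z := by
    obtain ⟨k1, k2⟩ := key (m * r) (hm.trans hmr)
    rw [← hz] at k1 k2
    obtain ⟨b, hb⟩ : ∃ b, b = B ^ (m * r) := ⟨_, rfl⟩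
    rw [← hb] at k1 k2 ⊢
    have hbT : b ∈ T := by rw [hb]; exact hpT B hB _ (hm.trans hmr)
    have c1 := hcom _ hzT _ (T.mul_mem hbT hzT) hzz (by rw [← mul_assoc, k2])
    -- z * (b * z) = (b * z) * z
    have c2 := hcom _ hzT _ (T.mul_mem hzT hbT) hzz (by rw [← mul_assoc, k1])
    -- z * (z * b) = (z * b) * z
    have d1 : b * z = z := by
      rw [mul_assoc, hzz, ← mul_assoc, k1] at c1
      exact c1.symm
    calc b = b * z * b := k2.symm
      _ = z * b := by rw [d1]
      _ = z * (z * b) := by rw [← mul_assoc, hzz]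
      _ = z * b * z := c2
      _ = z := k1
  have hzne : z.Nonempty := by rw [hz]; exact nonempty_pow hAne _
  have step : ∀ j : ℕ, r ≤ j → j ≤ m * r → A ^ (j + 1) * B ^ (j + 1) = z →
      A ^ j * B ^ j = z := by
    intro j hj hjm hej
    have hj1 : 1 ≤ j := hr.trans hj
    obtain ⟨M, hM⟩ : ∃ M, M = A ^ j * B ^ j := ⟨_, rfl⟩
    rw [← hM]
    have hMT : M ∈ T := by rw [hM]; exact T.mul_mem (hpT A hA j hj1) (hpT B hB j hj1)
    have hMM : M * M = M := by rw [hM, ← mul_assoc, (key j hj1).1]
    have hMne : M.Nonempty := by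
      rw [hM]; exact (nonempty_pow hAne j).mul (nonempty_pow hBne j)
    have haM : A * M = z * A := by
      have c := hcom _ (T.mul_mem hB hA) _ hMT f1 hMM
      calc A * M = (A * B * A) * M := by rw [hABA]
        _ = A * ((B * A) * M) := by simp only [mul_assoc]
        _ = A * (M * (B * A)) := by rw [c]
        _ = (A ^ (j + 1) * B ^ (j + 1)) * A := by
            rw [hM, pow_succ' A j, pow_succ B j]; simp only [mul_assoc]
        _ = z * A := by rw [hej]
    have harM : A ^ r * M = z := by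
      obtain ⟨q, rfl⟩ : ∃ q, r = q + 1 := ⟨r - 1, by omega⟩
      rw [pow_succ, mul_assoc, haM, hzc, ← mul_assoc, ← pow_succ, hzr]
    obtain ⟨hz1, -⟩ := idem_set hG hzz hzne
    obtain ⟨hM1, hMi⟩ := idem_set hG hMM hMne
    have hMmul : ∀ x ∈ M, ∀ y ∈ M, x * y ∈ M := by
      intro x hx y hy
      have := Set.mul_mem_mul hx hy
      rwa [hMM] at this
    have hPM : A ^ r * B ^ r * M = M := by
      rw [hM]
      obtain ⟨i, rfl⟩ := Nat.exists_eq_add_of_le hj
      rw [pow_add A r i]
      calc A ^ r * B ^ r * (A ^ r * A ^ i * B ^ (r + i))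
          = (A ^ r * B ^ r * A ^ r) * (A ^ i * B ^ (r + i)) := by simp only [mul_assoc]
        _ = A ^ r * A ^ i * B ^ (r + i) := by rw [(key r hr).1]; simp only [mul_assoc]
    have hP : ∀ p ∈ A ^ r * B ^ r, p ∈ M := by
      intro p hp
      have := Set.mul_mem_mul hp hM1
      rwa [hPM, mul_one] at this
    rw [← harM] at hz1
    obtain ⟨x, hx, q, hq, hxq⟩ := hz1
    have hxM : x ∈ M := by
      have hxq' : x * q = 1 := hxq
      have : x = q⁻¹ := eq_inv_of_mul_eq_one_left hxq'
      rw [this]; exact hMi q hq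
    obtain ⟨w, hw⟩ := nonempty_pow hBne r
    have hA' : ∀ y ∈ A ^ r, y ∈ M := by
      intro y hy
      have h1 := hP _ (Set.mul_mem_mul hy hw)
      have h2 := hP _ (Set.mul_mem_mul hx hw)
      have h3 := hMmul _ (hMmul _ h1 _ (hMi _ h2)) _ hxM
      have h4 : y * w * (x * w)⁻¹ * x = y := by group
      rwa [h4] at h3
    apply Set.Subset.antisymm
    · intro y hy
      have hMz : M * z = z := by
        rw [hM, hz]
        obtain ⟨i, hi⟩ := Nat.exists_eq_add_of_le hjm
        rw [hi, pow_add, ← mul_assoc, (key j hj1).1]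
      have hz1 : (1 : G) ∈ z := (idem_set hG hzz hzne).1
      have := Set.mul_mem_mul hy hz1
      rwa [hMz, mul_one] at this
    · intro y hy
      rw [← harM] at hy
      obtain ⟨a, ha, b, hb, rfl⟩ := hy
      exact hMmul _ (hA' a ha) _ hb
  have all : ∀ i : ℕ, i ≤ m * r - r → A ^ (m * r - i) * B ^ (m * r - i) = z := by
    intro i
    induction i with
    | zero => intro _; rw [Nat.sub_zero, hBz, ← hz, hzz]
    | succ i ih =>
      intro hi
      have h1 := ih (by omega)
      rw [show m * r - i = (m * r - (i + 1)) + 1 by omega] at h1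
      exact step _ (by omega) (by omega) h1
  have hfin : A ^ r * B ^ r = z := by
    have := all (m * r - r) le_rfl
    rwa [show m * r - (m * r - r) = r by omega] at this
  have hAr : A ^ r = z := by
    rw [← (key r hr).1, hfin, hzr']
  rw [hAr, hzz]

end

end Pool.Agent.J4.H3.PS
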