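import Mathlib
import Pool.Agent.J4.H3.PS.Nec

set_option autoImplicit false

open Pointwise

namespace Pool.Agent.J4.H3.PS

theorem quasi2 {G : Type*} [Group G] (hG : IsMulTorsion G) {X Y E F Z : Set G}
    (hXYX : X * Y * X = X) (hEE : E * E = E) (hFF : F * F = F)
    (hZZ : Z * Z = Z) (hc : F * (X * Y) = (X * Y) * F) (hXZ : X * Z = Z)
    (h : E * (Y * F * X) = Z) : E * F * (X * Y) = Z := by
  rcases Set.eq_empty_or_nonempty Z with hZ | hZne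
  · subst hZ
    simp only [Set.mul_eq_empty] at h ⊢
    tauto
  have hne := hZne
  rw [← h] at hne
  have hEne : E.Nonempty := hne.of_mul_left
  have h2 : (Y * F * X).Nonempty := hne.of_mul_right
  have hXne : X.Nonempty := h2.of_mul_right
  have hYne : Y.Nonempty := h2.of_mul_left.of_mul_left
  have hFne : F.Nonempty := h2.of_mul_left.of_mul_right
  obtain ⟨hZ1, hZi⟩ := idem_set hG hZZ hZne
  obtain ⟨hE1, hEi⟩ := idem_set hG hEE hEne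
  obtain ⟨hF1, hFi⟩ := idem_set hG hFF hFne
  have hHH : (X * Y) * (X * Y) = X * Y := by rw [← mul_assoc, hXYX]
  obtain ⟨hH1, hHi⟩ := idem_set hG hHH (hXne.mul hYne)
  have hBB : (F * (X * Y)) * (F * (X * Y)) = F * (X * Y) := by
    calc (F * (X * Y)) * (F * (X * Y)) = F * ((X * Y) * F) * (X * Y) := by
          simp only [mul_assoc]
      _ = F * (F * (X * Y)) * (X * Y) := by rw [hc]
      _ = (F * F) * ((X * Y) * (X * Y)) := by simp only [mul_assoc]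
      _ = F * (X * Y) := by rw [hFF, hHH]
  obtain ⟨hB1, hBi⟩ := idem_set hG hBB (hFne.mul (hXne.mul hYne))
  have mulZ : ∀ a ∈ Z, ∀ b ∈ Z, a * b ∈ Z := fun a ha b hb => by
    have := Set.mul_mem_mul ha hb; rwa [hZZ] at this
  have mulE : ∀ a ∈ E, ∀ b ∈ E, a * b ∈ E := fun a ha b hb => by
    have := Set.mul_mem_mul ha hb; rwa [hEE] at this
  have mulB : ∀ a ∈ F * (X * Y), ∀ b ∈ F * (X * Y), a * b ∈ F * (X * Y) := fun a ha b hb => by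
    have := Set.mul_mem_mul ha hb; rwa [hBB] at this
  have mulH : ∀ a ∈ X * Y, ∀ b ∈ X * Y, a * b ∈ X * Y := fun a ha b hb => by
    have := Set.mul_mem_mul ha hb; rwa [hHH] at this
  have hXsub : ∀ x ∈ X, x ∈ Z := fun x hx => by
    have := Set.mul_mem_mul hx hZ1; rwa [hXZ, mul_one] at this
  have hHZ : (X * Y) * Z = Z := by
    calc (X * Y) * Z = (X * Y) * (X * Z) := by rw [hXZ]
      _ = (X * Y * X) * Z := by simp only [mul_assoc]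
      _ = Z := by rw [hXYX, hXZ]
  have hHsub : ∀ x ∈ X * Y, x ∈ Z := fun x hx => by
    have := Set.mul_mem_mul hx hZ1; rwa [hHZ, mul_one] at this
  obtain ⟨x₀, hx₀⟩ := hXne
  obtain ⟨y₁, hy₁⟩ := hYne
  have hYsub : ∀ y ∈ Y, y ∈ Z := fun y hy => by
    have h3 := hHsub _ (Set.mul_mem_mul hx₀ hy)
    have h4 := mulZ _ (hZi _ (hXsub _ hx₀)) _ h3
    rwa [inv_mul_cancel_left] at h4
  have hTsub : ∀ t ∈ Y * F * X, t ∈ Z := fun t ht => by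
    have := Set.mul_mem_mul hE1 ht; rwa [h, one_mul] at this
  have hFsub : ∀ f ∈ F, f ∈ Z := fun f hf => by
    have h3 := hTsub _ (Set.mul_mem_mul (Set.mul_mem_mul hy₁ hf) hx₀)
    have h4 := mulZ _ (mulZ _ (hZi _ (hYsub _ hy₁)) _ h3) _ (hZi _ (hXsub _ hx₀))
    have h5 : y₁⁻¹ * (y₁ * f * x₀) * x₀⁻¹ = f := by group
    rwa [h5] at h4
  have hEsub : ∀ e ∈ E, e ∈ Z := fun e he => by
    obtain ⟨t, ht⟩ := h2
    have h3 : e * t ∈ Z := by rw [← h]; exact Set.mul_mem_mul he ht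
    have h4 := mulZ _ h3 _ (hZi _ (hTsub _ ht))
    rwa [mul_inv_cancel_right] at h4
  -- every element of `Z` is `ε * y * β`
  have hrep : ∀ w ∈ Z, ∃ ε ∈ E, ∃ y ∈ Y, ∃ β ∈ F * (X * Y), w = ε * y * β := by
    intro w hw
    have h3 := mulZ _ hw _ (hZi _ (hYsub _ hy₁))
    rw [← h] at h3
    obtain ⟨ε, hε, t, ⟨s, ⟨y, hy, f, hf, rfl⟩, x, hx, rfl⟩, ht⟩ := h3
    refine ⟨ε, hε, y, hy, f * (x * y₁), Set.mul_mem_mul hf (Set.mul_mem_mul hx hy₁), ?_⟩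
    have ht' : ε * (y * f * x) = w * y₁⁻¹ := ht
    rw [eq_mul_inv_iff_mul_eq] at ht'
    rw [← ht']
    simp only [mul_assoc]
  obtain ⟨ε, hε, y, hy, β, hβ, h1⟩ := hrep 1 hZ1
  have hyv : y = ε⁻¹ * β⁻¹ := by
    have : ε * y = β⁻¹ := eq_inv_of_mul_eq_one_left h1.symm
    rw [← this, inv_mul_cancel_left]
  rw [mul_assoc]
  apply Set.Subset.antisymm
  · rintro _ ⟨a, ha, _, ⟨f, hf, k, hk, rfl⟩, rfl⟩
    exact mulZ _ (hEsub _ ha) _ (mulZ _ (hFsub _ hf) _ (hHsub _ hk))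
  · intro w hw
    obtain ⟨ε₂, hε₂, y₂, hy₂, β₂, hβ₂, rfl⟩ := hrep w hw
    have hk : y⁻¹ * y₂ ∈ X * Y := by
      have h3 := mulH _ (hHi _ (Set.mul_mem_mul hx₀ hy)) _ (Set.mul_mem_mul hx₀ hy₂)
      have h4 : (x₀ * y)⁻¹ * (x₀ * y₂) = y⁻¹ * y₂ := by group
      rwa [h4] at h3
    have hkB : y⁻¹ * y₂ ∈ F * (X * Y) := by
      have := Set.mul_mem_mul hF1 hk; rwa [one_mul] at this
    refine ⟨ε₂ * ε⁻¹, mulE _ hε₂ _ (hEi _ hε), β⁻¹ * (y⁻¹ * y₂) * β₂,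
      mulB _ (mulB _ (hBi _ hβ) _ hkB) _ hβ₂, ?_⟩
    show ε₂ * ε⁻¹ * (β⁻¹ * (y⁻¹ * y₂) * β₂) = ε₂ * y₂ * β₂
    rw [hyv]
    group

end Pool.Agent.J4.H3.PS
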