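import Mathlib
import Pool.Agent.J4.H3.PS.AtomsC
import Pool.Agent.J4.H3.PS.Quasi

set_option autoImplicit false

open Pointwise

namespace Pool.Agent.J4.H3.PS

/-- `S` embeds in the power semigroup of a periodic group. -/
def EmbPer (S : Type) [Semigroup S] : Prop :=
  ∃ (G : Type) (_ : Group G) (_ : IsMulTorsion G) (ψ : S →ₙ* Set G), Function.Injective ψ

/-- The quasi-identity for idempotents. -/
theorem quasi_identity3 {S : Type} [Semigroup S] (hS : IsInv S) (hE : EmbPer S)
    (e f x y z : S) (he : e * e = e) (hf : f * f = f) (hx : x * y * x = x) (hy : y * x * y = y)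
    (hz : e * (y * f * x) = z) (hxz : x * z = z) : e * f * (x * y) = z := by
  obtain ⟨G, _, hG, ψ, hinj⟩ := hE
  have hxy : (x * y) * (x * y) = x * y := by rw [← mul_assoc, hx]
  have hc : f * (x * y) = (x * y) * f := hS.2 _ _ hf hxy
  have hyf : (y * f * x) * (y * f * x) = y * f * x := by
    calc (y * f * x) * (y * f * x) = y * (f * (x * y)) * (f * x) := by simp only [mul_assoc]
      _ = y * ((x * y) * f) * (f * x) := by rw [hc]
      _ = (y * x * y) * (f * f) * x := by simp only [mul_assoc]
      _ = y * f * x := by rw [hy, hf]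
  have hzz : z * z = z := by
    rw [← hz]
    have c := hS.2 _ _ he hyf
    calc e * (y * f * x) * (e * (y * f * x)) = e * ((y * f * x) * e) * (y * f * x) := by
          simp only [mul_assoc]
      _ = e * (e * (y * f * x)) * (y * f * x) := by rw [c]
      _ = (e * e) * ((y * f * x) * (y * f * x)) := by simp only [mul_assoc]
      _ = e * (y * f * x) := by rw [he, hyf]
  apply hinj
  simp only [map_mul]
  exact quasi2 hG (X := ψ x) (Y := ψ y) (E := ψ e) (F := ψ f) (Z := ψ z)
    (by rw [← map_mul, ← map_mul, hx]) (by rw [← map_mul, he]) (by rw [← map_mul, hf])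
    (by rw [← map_mul, hzz]) (by simp only [← map_mul]; rw [hc])
    (by rw [← map_mul, hxz]) (by simp only [← map_mul]; rw [hz])

section

variable {S : Type} [Semigroup S] (inv : S → S) (h1 : ∀ a, a * inv a * a = a)
  (h2 : ∀ a, inv a * a * inv a = inv a) (hc : ∀ e f : S, e * e = e → f * f = f → e * f = f * e)
  (z : S) (hz : z * z = z) (hmin : ∀ e : S, e * e = e → e * z = z)

include h1 h2 hc hz hmin in
/-- Conjugates of atoms are atoms. -/
theorem atom_conj {a w : S} (ha : IsAtomOver z a) (hw : a * (w * inv w) = a) :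
    IsAtomOver z (inv w * a * w) := by
  have hcen := central inv h1 h2 hc z hz hmin
  have c := hc _ _ ha.1 (idR inv h1 w)
  have hzw : inv w * z * w = z := by
    rw [hcen, mul_assoc, hc _ _ hz (idL inv h1 w)]
    exact hmin _ (idL inv h1 w)
  refine ⟨idem_conj inv h1 hc ha.1 hw, ?_, ?_⟩
  · intro h
    apply ha.2.1
    calc a = (a * (w * inv w)) * (w * inv w) := by rw [hw, hw]
      _ = ((w * inv w) * a) * (w * inv w) := by rw [c]
      _ = w * (inv w * a * w) * inv w := by simp only [mul_assoc]
      _ = w * z * inv w := by rw [h]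
      _ = z * (w * inv w) := by rw [hcen w, mul_assoc]
      _ = z := by rw [hc _ _ hz (idR inv h1 w)]; exact hmin _ (idR inv h1 w)
  · intro e he
    have ce := hc _ _ he (idL inv h1 w)
    have hwe : (w * e * inv w) * (w * e * inv w) = w * e * inv w := by
      calc (w * e * inv w) * (w * e * inv w) = w * (e * (inv w * w)) * (e * inv w) := by
            simp only [mul_assoc]
        _ = w * ((inv w * w) * e) * (e * inv w) := by rw [ce]
        _ = (w * inv w * w) * (e * e) * inv w := by simp only [mul_assoc]
        _ = w * e * inv w := by rw [h1, he]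
    have hb : inv w * a * w * e = inv w * (a * (w * e * inv w)) * w := by
      calc inv w * a * w * e = inv w * a * (w * inv w * w) * e := by rw [h1]
        _ = inv w * a * w * ((inv w * w) * e) := by simp only [mul_assoc]
        _ = inv w * a * w * (e * (inv w * w)) := by rw [ce]
        _ = inv w * (a * (w * e * inv w)) * w := by simp only [mul_assoc]
    rw [hb]
    rcases ha.2.2 _ hwe with h | h
    · left; rw [h]
    · right; rw [h, hzw]

include h1 h2 hc hz hmin in
/-- The condition on the atoms in the form which is used in the construction. -/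
theorem atoms_fixed
    (hC : ∀ a x y : S, IsAtomOver z a → x * y * x = x → y * x * y = y → x * z = z →
      a * (x * y) = a → a * (y * a * x) ≠ z)
    (p w a : S) (ha : IsAtomOver z a) (hpw : p * z = w * z) (hp : a * (p * inv p) = a)
    (hw : a * (w * inv w) = a) : inv p * a * p = inv w * a * w := by
  have hcen := central inv h1 h2 hc z hz hmin
  have hb := atom_conj inv h1 h2 hc z hz hmin ha hw
  have hb' := atom_conj inv h1 h2 hc z hz hmin ha hp
  have cw := hc _ _ ha.1 (idR inv h1 w)
  have cp := hc _ _ ha.1 (idR inv h1 p)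
  have hinv : inv (inv w * p) = inv p * w := by
    rw [inv_mul' inv h1 h2 hc, inv_inv' inv h1 h2 hc]
  have hxz : (inv w * p) * z = z := by
    rw [mul_assoc, hpw, ← mul_assoc]
    exact hmin _ (idL inv h1 w)
  have e1 : (inv w * a * w) * ((inv w * p) * (inv p * w)) = inv w * a * w := by
    calc (inv w * a * w) * ((inv w * p) * (inv p * w))
        = inv w * ((a * (w * inv w)) * (p * inv p)) * w := by simp only [mul_assoc]
      _ = inv w * a * w := by rw [hw, hp]
  have h5 := hC (inv w * a * w) (inv w * p) (inv p * w) hb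
    (by rw [← hinv]; exact h1 _) (by rw [← hinv]; exact h2 _) hxz e1
  have e2 : inv p * w * (inv w * a * w) * (inv w * p) = inv p * a * p := by
    calc inv p * w * (inv w * a * w) * (inv w * p)
        = inv p * (((w * inv w) * a) * (w * inv w)) * p := by simp only [mul_assoc]
      _ = inv p * a * p := by rw [← cw, hw, hw]
  rw [e2] at h5
  have h6 := (hb.2.2 _ hb'.1).resolve_right h5
  have h7 : (inv p * a * p) * (inv w * a * w) = inv p * a * p := by
    refine (hb'.2.2 _ hb.1).resolve_right ?_
    rw [hc _ _ hb'.1 hb.1]; exact h5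
  rw [← h7, hc _ _ hb'.1 hb.1, h6]

end

/-- The theorem on inverse semigroups which act faithfully on the atoms over the kernel. -/
theorem atoms_tfae {S : Type} [Semigroup S] [Finite S] (hS : IsInv S) (z : S) (hz : z * z = z)
    (hmin : ∀ e : S, e * e = e → e * z = z)
    (hsep : ∀ s t : S, s * z = t * z → (∀ a, IsAtomOver z a → a * s = a * t) → s = t) :
    List.TFAE [EmbFinite S, EmbPer S,
      ∀ a x y : S, IsAtomOver z a → x * y * x = x → y * x * y = y → x * z = z →
        a * (x * y) = a → y * a * x = a] := by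
  tfae_have 1 → 2 := by
    rintro ⟨G, _, hG, ψ, hinj, -⟩
    exact ⟨G, _, fun x => isOfFinOrder_of_finite x, ψ, hinj⟩
  have hS' := hS
  obtain ⟨hreg, hc⟩ := hS
  choose inv h1 h2 using hreg
  have main : (∀ a x y : S, IsAtomOver z a → x * y * x = x → y * x * y = y → x * z = z →
      a * (x * y) = a → a * (y * a * x) ≠ z) →
      ∀ p w a : S, IsAtomOver z a → p * z = w * z → a * (p * inv p) = a →
        a * (w * inv w) = a → inv p * a * p = inv w * a * w :=
    fun hC => atoms_fixed inv h1 h2 hc z hz hmin hC
  tfae_have 2 → 3 := by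
    intro hE a x y ha hx hy hxz haxy
    have hA := main (fun a x y ha hx hy hxz haxy hcon => by
      have := quasi_identity3 hS' hE a a x y z ha.1 ha.1 hx hy hcon hxz
      rw [ha.1, haxy] at this
      exact ha.2.1 this)
    have hxi : inv x = y := uniq hc (h1 x) (h2 x) hx hy
    have hai := inv_idem inv h1 h2 hc ha.1
    have := hA x a a ha (by rw [hxz, hmin a ha.1]) (by rw [hxi, haxy]) (by rw [hai, ha.1, ha.1])
    rw [hxi, hai, ha.1, ha.1] at this
    exact this
  tfae_have 3 → 1 := by
    intro h3
    have hA := main (fun a x y ha hx hy hxz haxy => by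
      rw [h3 a x y ha hx hy hxz haxy, ha.1]; exact ha.2.1)
    have hcen := central inv h1 h2 hc z hz hmin
    have hl : ∀ s, inv s * s * z = z := fun s => hmin _ (idL inv h1 s)
    have hr : ∀ s, s * inv s * z = z := fun s => hmin _ (idR inv h1 s)
    have hθ := θ0_eq inv z hz hcen hl hr
    exact ⟨WK (Equiv.Perm {w : S // z * w = w}) S (Equiv.Perm S × Multiplicative (ZMod 2)),
      inferInstance, inferInstance,
      ⟨Ψ (θ0 inv z hcen hl hr) (VV inv z (θ0 inv z hcen hl hr)) (CC inv (θ0 inv z hcen hl hr)),
        Ψ_mul _ _ _ (VV_mul inv h1 h2 hc z _ hθ hA) (CC_mul inv h1 h2 hc z _ hθ hA)⟩,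
      Ψ_inj inv h1 h2 hc z _ hθ hA hz hmin hsep, fun s => Ψ_ne _ _ _ s⟩
  tfae_finish

end Pool.Agent.J4.H3.PS
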